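import Pool.Agent.helper24.SK.Spec

/-!
# Project SK (MP_5628fe_nt), row GCD: elements of the window with a common factor with M
-/

set_option autoImplicit false

namespace Pool.Agent.SK

open Finset ArithmeticFunction MeasureTheory
open Pool.Agent.CH (nit DPb Win Tset ph)
open Pool.Agent.EC (tri vN fN XN TL AdT)
open Pool.Agent.helper85.BVP (tau)
open GD (ks)

private lemma GCD_mult (x y d : ℕ) (hd : 0 < d) (hxy : x ≤ y) :
    ((#((Ioc x y).filter fun m => d ∣ m) : ℕ) : ℝ) ≤ ((y : ℝ) - x) / d + 1 := by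
  have h1 : #((Ioc 0 y).filter fun m => d ∣ m) =
      #((Ioc 0 x).filter fun m => d ∣ m) + #((Ioc x y).filter fun m => d ∣ m) := by
    rw [← Finset.card_union_of_disjoint]
    · congr 1
      ext m
      simp only [Finset.mem_filter, Finset.mem_union, Finset.mem_Ioc]
      constructor
      · rintro ⟨⟨h1, h2⟩, h3⟩
        rcases le_or_gt m x with h | h
        · exact Or.inl ⟨⟨h1, h⟩, h3⟩
        · exact Or.inr ⟨⟨h, h2⟩, h3⟩
      · rintro (⟨⟨h1, h2⟩, h3⟩ | ⟨⟨h1, h2⟩, h3⟩)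
        · exact ⟨⟨h1, by omega⟩, h3⟩
        · exact ⟨⟨by omega, h2⟩, h3⟩
    · rw [Finset.disjoint_left]
      intro m h h'
      simp only [Finset.mem_filter, Finset.mem_Ioc] at h h'
      omega
  rw [Nat.Ioc_filter_dvd_card_eq_div, Nat.Ioc_filter_dvd_card_eq_div] at h1
  have hd' : (0 : ℝ) < d := by exact_mod_cast hd
  have h2 : ((y / d : ℕ) : ℝ) ≤ (y : ℝ) / d := Nat.cast_div_le
  have h3 : (x : ℝ) / d < ((x / d : ℕ) : ℝ) + 1 := by
    rw [div_lt_iff₀ hd']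
    have := Nat.lt_mul_div_succ x hd
    have h4 : (x : ℝ) < ((d * (x / d + 1) : ℕ) : ℝ) := by exact_mod_cast this
    rw [Nat.cast_mul] at h4
    push_cast at h4
    linarith [mul_comm (d : ℝ) (((x / d : ℕ) : ℝ) + 1)]
  have h4 : ((y / d : ℕ) : ℝ) = ((x / d : ℕ) : ℝ) + (#((Ioc x y).filter fun m => d ∣ m) : ℕ) := by
    exact_mod_cast h1
  rw [sub_div]
  linarith

private lemma GCD_omega (M : ℕ) (hM : 0 < M) : #M.primeFactors ≤ Nat.log 2 M := by
  apply Nat.le_log_of_pow_le (by norm_num)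
  calc 2 ^ #M.primeFactors ≤ ∏ p ∈ M.primeFactors, p :=
        Finset.pow_card_le_prod _ _ _ fun p hp => (Nat.prime_of_mem_primeFactors hp).two_le
    _ ≤ M := Nat.le_of_dvd hM (Nat.prod_primeFactors_dvd M)

private lemma GCD_alpha {r : ℕ} (a : Fin r → ℝ) (h : ∀ i, 0 < a i) : ∃ α : ℝ, 0 < α ∧ ∀ i, α ≤ a i := by
  rcases isEmpty_or_nonempty (Fin r) with he | hne
  · exact ⟨1, one_pos, fun i => he.elim i⟩
  · obtain ⟨i, hi⟩ := Finite.exists_min a
    exact ⟨a i, h i, hi⟩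

theorem GCD (h1 : TLD_stmt) (h2 : TLB_stmt) : GCD_stmt := by
  intro r a b hab A
  obtain ⟨C, N₁, hC, hTL⟩ := h2 r a b hab
  have ha : ∀ i, 0 < a i := by
    rcases hab with h | h
    · subst h
      exact fun i => i.elim0
    · exact fun i => (h.2.1 i).1
  have hb : ∑ i, b i < 3 := by
    rcases hab with h | h
    · subst h
      simp
    · exact h.2.2.2
  obtain ⟨α, hα, hαa⟩ := GCD_alpha a ha
  set η : ℝ := min α (min (3 - ∑ i, b i) 1) with hη
  have hη0 : 0 < η := lt_min hα (lt_min (by linarith) one_pos)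
  have hη1 : η ≤ 1 := (min_le_right _ _).trans (min_le_right _ _)
  have hηα : η ≤ α := min_le_left _ _
  have hηκ : η ≤ 3 - ∑ i, b i := (min_le_right _ _).trans (min_le_left _ _)
  -- growth
  have hlo := (isLittleO_log_rpow_rpow_atTop (((3 + A : ℕ) : ℝ)) hη0).bound
    (show (0 : ℝ) < 1 / (968 * C) by positivity)
  have hev : ∀ᶠ N : ℕ in Filter.atTop, ‖Real.log (N : ℝ) ^ (((3 + A : ℕ) : ℝ))‖ ≤
      1 / (968 * C) * ‖(N : ℝ) ^ η‖ ∧ 1 ≤ Real.log (N : ℝ) ∧ N₁ ≤ N ∧ 1 ≤ N :=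
    (tendsto_natCast_atTop_atTop.eventually hlo).and
      (((Real.tendsto_log_atTop.comp tendsto_natCast_atTop_atTop).eventually_ge_atTop _).and
        ((Filter.eventually_ge_atTop N₁).and (Filter.eventually_ge_atTop 1)))
  obtain ⟨N₀, hN₀⟩ := Filter.eventually_atTop.1 hev
  refine ⟨N₀, fun N hN M hM0 hM => ?_⟩
  obtain ⟨hgrow, hL1, hNN₁, hN1⟩ := hN₀ N hN
  have hNr : (1 : ℝ) ≤ N := by exact_mod_cast hN1
  have hNr0 : (0 : ℝ) < N := by linarith
  set L := Real.log (N : ℝ) with hL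
  have hL0 : 0 < L := by linarith
  have hNη : 0 < (N : ℝ) ^ η := Real.rpow_pos_of_pos hNr0 η
  rw [Real.rpow_natCast, Real.norm_eq_abs, Real.norm_eq_abs, abs_of_pos (by positivity), abs_of_pos hNη,
    one_div_mul_eq_div, le_div_iff₀ (by positivity)] at hgrow
  have hcube : (N + 1) ^ 3 ≤ 64 * N ^ 3 := by
    calc (N + 1) ^ 3 ≤ (4 * N) ^ 3 := Nat.pow_le_pow_left (by omega) 3
      _ = 64 * N ^ 3 := by ring
  have hWin : ∀ m ∈ Win N, 0 < m ∧ N ^ 3 ≤ m ∧ m ≤ 64 * N ^ 3 := by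
    intro m hm
    unfold Win at hm
    rw [Finset.mem_Ioc] at hm
    refine ⟨by omega, hm.1.le, hm.2.trans hcube⟩
  set K := Nat.log 2 (64 * N ^ 3) with hK
  have h64 : 64 * N ^ 3 ≠ 0 := by positivity
  -- the exceptional divisors
  set Z := (M.primeFactors ×ˢ Icc 1 K).filter fun z : ℕ × ℕ => (N : ℝ) ^ η ≤ ((z.1 ^ z.2 : ℕ) : ℝ) with hZ
  have hZc : ((#Z : ℕ) : ℝ) ≤ (K : ℝ) * K := by
    have h3 : #Z ≤ K * K := by
      refine (Finset.card_filter_le _ _).trans ?_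
      rw [Finset.card_product, Nat.card_Icc, Nat.add_sub_cancel]
      refine Nat.mul_le_mul_right _ ?_
      exact (GCD_omega M hM0).trans (Nat.log_mono_right hM)
    exact_mod_cast h3
  set S := (Win N).filter fun m => ¬ Nat.Coprime m M ∧ TL N a b m ≠ 0 with hS
  have hsub : S ⊆ Z.biUnion fun z => (Win N).filter fun m => z.1 ^ z.2 ∣ m := by
    intro m hm
    rw [hS, Finset.mem_filter] at hm
    obtain ⟨hmW, hmc, hmT⟩ := hm
    obtain ⟨hm0, hmN, hm64⟩ := hWin m hmW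
    -- a prime dividing both
    obtain ⟨π, hπ, hπm, hπM⟩ := Nat.Prime.not_coprime_iff_dvd.1 hmc
    unfold TL at hmT
    obtain ⟨p, hp, hne⟩ := Finset.exists_ne_zero_of_sum_ne_zero hmT
    rw [Finset.mem_filter, Fintype.mem_piFinset] at hp
    obtain ⟨hpp, hpr, hpd⟩ := hp
    have hpos : 0 < ∏ i, p i := Finset.prod_pos fun i _ => (Nat.prime_of_mem_primeFactors (hpp i)).pos
    rw [vonMangoldt_ne_zero_iff, isPrimePow_nat_iff] at hne
    obtain ⟨q, k, hq, hk, hqk⟩ := hne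
    have hmfac : m = (∏ i, p i) * q ^ k := by
      rw [hqk, Nat.mul_div_cancel' hpd]
    -- the exceptional divisor
    obtain ⟨e, he1, he2, he3⟩ : ∃ e : ℕ, 1 ≤ e ∧ (N : ℝ) ^ η ≤ ((π ^ e : ℕ) : ℝ) ∧ π ^ e ∣ m := by
      have h3 : π ∣ (∏ i, p i) * q ^ k := by rw [← hmfac]; exact hπm
      rcases (Nat.Prime.dvd_mul hπ).1 h3 with h4 | h4
      · obtain ⟨i, _, hi⟩ := (Prime.dvd_finset_prod_iff hπ.prime p).1 h4
        have hπi : π = p i := (Nat.prime_dvd_prime_iff_eq hπ (Nat.prime_of_mem_primeFactors (hpp i))).1 hi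
        refine ⟨1, le_rfl, ?_, by rw [pow_one]; exact hπm⟩
        rw [pow_one, hπi]
        refine le_trans ?_ (hpr i).1
        exact Real.rpow_le_rpow_of_exponent_le hNr (hηα.trans (hαa i))
      · have hπq : π = q := (Nat.prime_dvd_prime_iff_eq hπ hq).1 (hπ.dvd_of_dvd_pow h4)
        refine ⟨k, hk, ?_, ?_⟩
        · rw [hπq]
          have h5 : ((∏ i, p i : ℕ) : ℝ) ≤ (N : ℝ) ^ (∑ i, b i) := by
            rw [Nat.cast_prod, Real.rpow_sum_of_pos hNr0]
            exact Finset.prod_le_prod (fun i _ => Nat.cast_nonneg _) fun i _ => (hpr i).2.le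
          have h6 : (N : ℝ) ^ (3 : ℝ) ≤ ((∏ i, p i : ℕ) : ℝ) * ((q ^ k : ℕ) : ℝ) := by
            have h7 : ((N ^ 3 : ℕ) : ℝ) ≤ (m : ℝ) := by exact_mod_cast hmN
            rw [hmfac, Nat.cast_mul] at h7
            refine le_trans (le_of_eq ?_) h7
            push_cast
            rw [← Real.rpow_natCast]
            norm_num
          have h8 : (N : ℝ) ^ (3 : ℝ) ≤ (N : ℝ) ^ (∑ i, b i) * ((q ^ k : ℕ) : ℝ) :=
            h6.trans (mul_le_mul_of_nonneg_right h5 (Nat.cast_nonneg _))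
          have h9 : (N : ℝ) ^ (3 : ℝ) = (N : ℝ) ^ (∑ i, b i) * (N : ℝ) ^ (3 - ∑ i, b i) := by
            rw [← Real.rpow_add hNr0]
            congr 1
            ring
          rw [h9] at h8
          have h10 : (N : ℝ) ^ (3 - ∑ i, b i) ≤ ((q ^ k : ℕ) : ℝ) :=
            le_of_mul_le_mul_left h8 (Real.rpow_pos_of_pos hNr0 _)
          exact (Real.rpow_le_rpow_of_exponent_le hNr hηκ).trans h10
        · rw [hπq, hmfac]
          exact dvd_mul_left _ _
    rw [Finset.mem_biUnion]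
    refine ⟨(π, e), ?_, ?_⟩
    · rw [hZ, Finset.mem_filter, Finset.mem_product, Nat.mem_primeFactors, Finset.mem_Icc]
      refine ⟨⟨⟨hπ, hπM, hM0.ne'⟩, he1, ?_⟩, he2⟩
      apply Nat.le_log_of_pow_le (by norm_num)
      calc 2 ^ e ≤ π ^ e := Nat.pow_le_pow_left hπ.two_le e
        _ ≤ m := Nat.le_of_dvd hm0 he3
        _ ≤ 64 * N ^ 3 := hm64
    · rw [Finset.mem_filter]
      exact ⟨hmW, he3⟩
  have hcount : ((#S : ℕ) : ℝ) ≤ (K : ℝ) * K * (8 * ((N : ℝ) ^ 2 / (N : ℝ) ^ η)) := by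
    have h3 : ((#S : ℕ) : ℝ) ≤ ∑ z ∈ Z, ((#((Win N).filter fun m => z.1 ^ z.2 ∣ m) : ℕ) : ℝ) := by
      have := (Finset.card_le_card hsub).trans Finset.card_biUnion_le
      exact_mod_cast this
    have h4 : ∀ z ∈ Z, ((#((Win N).filter fun m => z.1 ^ z.2 ∣ m) : ℕ) : ℝ) ≤
        8 * ((N : ℝ) ^ 2 / (N : ℝ) ^ η) := by
      intro z hz
      rw [hZ, Finset.mem_filter, Finset.mem_product, Nat.mem_primeFactors] at hz
      have hd0 : 0 < z.1 ^ z.2 := pow_pos hz.1.1.1.pos _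
      unfold Win
      refine (GCD_mult _ _ _ hd0 (Nat.pow_le_pow_left (by omega) 3)).trans ?_
      have h5 : (((N + 1) ^ 3 : ℕ) : ℝ) - ((N ^ 3 : ℕ) : ℝ) ≤ 7 * (N : ℝ) ^ 2 := by
        push_cast
        nlinarith
      have h6 : ((((N + 1) ^ 3 : ℕ) : ℝ) - ((N ^ 3 : ℕ) : ℝ)) / ((z.1 ^ z.2 : ℕ) : ℝ) ≤
          7 * (N : ℝ) ^ 2 / (N : ℝ) ^ η :=
        div_le_div₀ (by positivity) h5 hNη hz.2
      have h7 : 1 ≤ (N : ℝ) ^ 2 / (N : ℝ) ^ η := by
        rw [one_le_div hNη]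
        calc (N : ℝ) ^ η ≤ (N : ℝ) ^ (1 : ℝ) := Real.rpow_le_rpow_of_exponent_le hNr hη1
          _ = N := Real.rpow_one _
          _ ≤ (N : ℝ) ^ 2 := by nlinarith
      have h8 : 7 * (N : ℝ) ^ 2 / (N : ℝ) ^ η = 7 * ((N : ℝ) ^ 2 / (N : ℝ) ^ η) := by ring
      rw [h8] at h6
      linarith
    refine h3.trans ((Finset.sum_le_card_nsmul _ _ _ h4).trans ?_)
    rw [nsmul_eq_mul]
    exact mul_le_mul_of_nonneg_right hZc (by positivity)
  -- K ≤ 11 L
  have hKL : (K : ℝ) ≤ 11 * L := by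
    have h3 : 2 ^ K ≤ 64 * N ^ 3 := Nat.pow_log_le_self 2 h64
    have h4 : (2 : ℝ) ^ K ≤ 64 * (N : ℝ) ^ 3 := by exact_mod_cast h3
    have h5 := Real.log_le_log (by positivity) h4
    rw [Real.log_pow, Real.log_mul (by norm_num) (by positivity), Real.log_pow,
      (by norm_num : (64 : ℝ) = 2 ^ 6), Real.log_pow] at h5
    push_cast at h5
    rw [← hL] at h5
    have h6 := Real.log_two_gt_d9
    have h7 : (0 : ℝ) ≤ K := Nat.cast_nonneg K
    by_contra hcon
    push Not at hcon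
    have h8 : (K - 6 : ℝ) * Real.log 2 ≤ 3 * L := by linarith
    have h9 : 5 * L * (6 / 10 : ℝ) ≤ (K - 6 : ℝ) * Real.log 2 := by
      apply mul_le_mul (by linarith) (by linarith) (by norm_num) (by linarith)
    have h10 : (K - 6 : ℝ) * (6 / 10 : ℝ) ≤ (K - 6 : ℝ) * Real.log 2 :=
      mul_le_mul_of_nonneg_left (by linarith) (by linarith)
    linarith
  -- the sum
  have hf : ∀ m, 0 ≤ fN N m ∧ fN N m ≤ 1 := by
    intro m
    unfold fN tri
    refine ⟨le_max_left _ _, ?_⟩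
    apply max_le (by norm_num)
    have : 0 ≤ |Real.log (m : ℝ) - vN N| / (1 / (N : ℝ)) := by positivity
    linarith
  have hsum : ∑ m ∈ Win N with ¬ Nat.Coprime m M, TL N a b m * fN N m ≤ (#S : ℕ) * (C * L) := by
    have h3 : ∑ m ∈ Win N with ¬ Nat.Coprime m M, TL N a b m * fN N m =
        ∑ m ∈ S, TL N a b m * fN N m := by
      symm
      apply Finset.sum_subset_zero_on_sdiff
      · intro m hm
        rw [hS, Finset.mem_filter] at hm
        rw [Finset.mem_filter]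
        exact ⟨hm.1, hm.2.1⟩
      · intro m hm
        rw [Finset.mem_sdiff, Finset.mem_filter, hS, Finset.mem_filter] at hm
        have : TL N a b m = 0 := by
          by_contra hne
          exact hm.2 ⟨hm.1.1, hm.1.2, hne⟩
        rw [this, zero_mul]
      · intro m _
        rfl
    rw [h3, ← nsmul_eq_mul]
    apply Finset.sum_le_card_nsmul
    intro m hm
    rw [hS, Finset.mem_filter] at hm
    obtain ⟨_, _, hm64⟩ := hWin m hm.1
    have h4 := hTL N hNN₁ m hm64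
    calc TL N a b m * fN N m ≤ TL N a b m * 1 := mul_le_mul_of_nonneg_left (hf m).2 h4.1
      _ ≤ C * L := by rw [mul_one]; exact h4.2
  refine hsum.trans ?_
  have hKK : (K : ℝ) * K ≤ 11 * L * (11 * L) := mul_le_mul hKL hKL (Nat.cast_nonneg K) (by positivity)
  calc ((#S : ℕ) : ℝ) * (C * L) ≤ (K : ℝ) * K * (8 * ((N : ℝ) ^ 2 / (N : ℝ) ^ η)) * (C * L) :=
        mul_le_mul_of_nonneg_right hcount (by positivity)
    _ ≤ 11 * L * (11 * L) * (8 * ((N : ℝ) ^ 2 / (N : ℝ) ^ η)) * (C * L) := by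
        apply mul_le_mul_of_nonneg_right _ (by positivity)
        exact mul_le_mul_of_nonneg_right hKK (by positivity)
    _ = (L ^ (3 + A) * (968 * C)) * ((N : ℝ) ^ 2 / (N : ℝ) ^ η) / L ^ A := by
        rw [pow_add]
        field_simp
        ring
    _ ≤ (N : ℝ) ^ η * ((N : ℝ) ^ 2 / (N : ℝ) ^ η) / L ^ A := by
        apply div_le_div_of_nonneg_right _ (by positivity)
        exact mul_le_mul_of_nonneg_right hgrow (by positivity)
    _ = (N : ℝ) ^ 2 / L ^ A := by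
        congr 1
        field_simp

end Pool.Agent.SK
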