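import Pool.Agent.helper24.SK.Spec

/-!
# Project SK (MP_5628fe_nt), row MVP: mean values of products of Dirichlet polynomials
-/

set_option autoImplicit false

namespace Pool.Agent.SK

open Finset ArithmeticFunction MeasureTheory
open Pool.Agent.CH (nit DPb Win Tset ph)
open Pool.Agent.EC (tri vN fN XN TL AdT)
open Pool.Agent.helper85.BVP (tau)
open GD (ks)

private lemma MVP_nit (t : ℝ) (m k : ℕ) (hm : 0 < m) (hk : 0 < k) :
    nit t ((m * k : ℕ) : ℝ) = nit t m * nit t k := by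
  have hm' : (m : ℝ) ≠ 0 := by exact_mod_cast hm.ne'
  have hk' : (k : ℝ) ≠ 0 := by exact_mod_cast hk.ne'
  unfold nit
  rw [← Complex.exp_add, Nat.cast_mul, Real.log_mul hm' hk']
  congr 1
  push_cast
  ring

private lemma MVP_tau_one (n : ℕ) (hn : 1 ≤ n) : 1 ≤ tau n := by
  unfold tau
  have : 0 < #n.divisors := Finset.card_pos.2 ⟨1, Nat.one_mem_divisors.2 (by omega)⟩
  exact_mod_cast this

private lemma MVP_tau_dvd (m n : ℕ) (hn : 1 ≤ n) (h : m ∣ n) : tau m ≤ tau n := by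
  unfold tau
  exact_mod_cast Finset.card_le_card (Nat.divisors_subset_of_dvd (by omega) h)

/-- the coefficients of the product with one more polynomial -/
private noncomputable def MVP_c (M : ℕ) (a b : ℕ → ℂ) (n : ℕ) : ℂ :=
  ∑ m ∈ n.divisors with m ∈ Ico M (2 * M), a m * b (n / m)

private lemma MVP_swap (M X : ℕ) (hM : 1 ≤ M) (a b : ℕ → ℂ) (t : ℝ) :
    ∑ n ∈ Ioc 0 X, MVP_c M a b n * nit t n =
      ∑ m ∈ Ico M (2 * M), a m * nit t m * ∑ k ∈ Ioc 0 (X / m), b k * nit t k := by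
  have h1 : ∀ n ∈ Ioc 0 X, MVP_c M a b n * nit t n =
      ∑ m ∈ Ico M (2 * M), if m ∣ n then a m * b (n / m) * nit t n else 0 := by
    intro n hn
    rw [mem_Ioc] at hn
    unfold MVP_c
    rw [Finset.sum_mul, ← Finset.sum_filter]
    refine Finset.sum_congr ?_ fun _ _ => rfl
    ext m
    simp only [Finset.mem_filter, Nat.mem_divisors, Finset.mem_Ico]
    constructor
    · rintro ⟨⟨h1, _⟩, h3⟩
      exact ⟨h3, h1⟩
    · rintro ⟨h3, h1⟩
      exact ⟨⟨h1, hn.1.ne'⟩, h3⟩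
  rw [Finset.sum_congr rfl h1, Finset.sum_comm]
  refine Finset.sum_congr rfl fun m hm => ?_
  rw [mem_Ico] at hm
  have hm0 : 0 < m := by omega
  rw [← Finset.sum_filter, Finset.mul_sum]
  symm
  refine Finset.sum_bij (fun k _ => m * k) ?_ ?_ ?_ ?_
  · intro k hk
    rw [mem_Ioc, Nat.le_div_iff_mul_le hm0] at hk
    rw [mem_filter, mem_Ioc]
    exact ⟨⟨Nat.mul_pos hm0 hk.1, by rw [mul_comm]; exact hk.2⟩, dvd_mul_right m k⟩
  · intro k _ k' _ h
    exact Nat.eq_of_mul_eq_mul_left hm0 h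
  · intro n hn
    rw [mem_filter, mem_Ioc] at hn
    obtain ⟨⟨h1, h2⟩, ⟨k, rfl⟩⟩ := hn
    refine ⟨k, ?_, rfl⟩
    rw [mem_Ioc, Nat.le_div_iff_mul_le hm0]
    exact ⟨Nat.pos_of_mul_pos_left h1 |> fun h => h, by rw [mul_comm]; exact h2⟩
  · intro k hk
    rw [mem_Ioc] at hk
    rw [MVP_nit t m k hm0 hk.1, Nat.mul_div_cancel_left k hm0]
    ring

/-- the product as one Dirichlet polynomial -/
private lemma MVP_prod (R c : ℕ) (L : ℝ) (hL : 1 ≤ L) (M : Fin R → ℕ) (a : Fin R → ℕ → ℂ) (hM : ∀ i, 1 ≤ M i)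
    (ha : ∀ i m, m < 2 * M i → ‖a i m‖ ≤ L ^ c) (I : Finset (Fin R)) :
    ∃ b : ℕ → ℂ, (∀ n, b n ≠ 0 → ∏ i ∈ I, M i ≤ n ∧ n ≤ 2 ^ #I * ∏ i ∈ I, M i) ∧
      (∀ n, 1 ≤ n → ‖b n‖ ≤ (L ^ c * tau n) ^ #I) ∧
      ∀ (t : ℝ) (X : ℕ), 2 ^ #I * ∏ i ∈ I, M i ≤ X →
        ∏ i ∈ I, DPb (M i) (a i) t = ∑ n ∈ Ioc 0 X, b n * nit t n := by
  induction I using Finset.induction_on with
  | empty =>
    refine ⟨fun n => if n = 1 then 1 else 0, ?_, ?_, ?_⟩
    · intro n hn
      have : n = 1 := by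
        by_contra h
        simp [h] at hn
      subst this
      simp
    · intro n _
      by_cases h : n = 1
      · simp [h]
      · simp [h]
    · intro t X hX
      simp only [Finset.card_empty, pow_zero, Finset.prod_empty, mul_one] at hX ⊢
      rw [Finset.sum_eq_single 1]
      · simp [nit]
      · intro n _ hn
        simp [hn]
      · intro h
        exact absurd (Finset.mem_Ioc.2 ⟨by norm_num, hX⟩) h
  | insert j I hj ih =>
    obtain ⟨b, hb1, hb2, hb3⟩ := ih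
    have hcard : #(insert j I) = #I + 1 := Finset.card_insert_of_notMem hj
    have hP : ∏ i ∈ insert j I, M i = M j * ∏ i ∈ I, M i := Finset.prod_insert hj
    refine ⟨MVP_c (M j) (a j) b, ?_, ?_, ?_⟩
    · intro n hn
      rw [hcard, hP]
      unfold MVP_c at hn
      obtain ⟨m, hm, hne⟩ := Finset.exists_ne_zero_of_sum_ne_zero hn
      rw [Finset.mem_filter, Nat.mem_divisors, Finset.mem_Ico] at hm
      obtain ⟨⟨hdvd, hn0⟩, hm1, hm2⟩ := hm
      have hb := hb1 (n / m) (right_ne_zero_of_mul hne)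
      obtain ⟨k, rfl⟩ := hdvd
      have hm0 : 0 < m := by
        have := hM j
        omega
      rw [Nat.mul_div_cancel_left k hm0] at hb
      constructor
      · exact Nat.mul_le_mul hm1 hb.1
      · calc m * k ≤ (2 * M j) * (2 ^ #I * ∏ i ∈ I, M i) := Nat.mul_le_mul hm2.le hb.2
          _ = 2 ^ (#I + 1) * (M j * ∏ i ∈ I, M i) := by ring
    · intro n hn
      rw [hcard]
      unfold MVP_c
      have ht := MVP_tau_one n hn
      have hLc : 1 ≤ L ^ c := one_le_pow₀ hL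
      have h1 : ∀ m ∈ n.divisors.filter (fun m => m ∈ Ico (M j) (2 * M j)),
          ‖a j m * b (n / m)‖ ≤ L ^ c * (L ^ c * tau n) ^ #I := by
        intro m hm
        rw [Finset.mem_filter, Nat.mem_divisors, Finset.mem_Ico] at hm
        obtain ⟨⟨hdvd, hn0⟩, hm1, hm2⟩ := hm
        rw [norm_mul]
        have hk : 1 ≤ n / m := Nat.div_pos (Nat.le_of_dvd (by omega) hdvd) (by have := hM j; omega)
        refine mul_le_mul (ha j m hm2) ((hb2 _ hk).trans ?_) (norm_nonneg _) (by positivity)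
        refine pow_le_pow_left₀ (by unfold tau; positivity) ?_ _
        exact mul_le_mul_of_nonneg_left (MVP_tau_dvd _ _ hn (Nat.div_dvd_of_dvd hdvd)) (by positivity)
      refine (norm_sum_le_of_le _ h1).trans ?_
      rw [Finset.sum_const, nsmul_eq_mul, pow_succ]
      have h2 : ((#(n.divisors.filter (fun m => m ∈ Ico (M j) (2 * M j))) : ℕ) : ℝ) ≤ tau n := by
        unfold tau
        exact_mod_cast Finset.card_filter_le _ _
      have h3 : 0 ≤ L ^ c * (L ^ c * tau n) ^ #I := by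
        unfold tau
        positivity
      calc _ ≤ tau n * (L ^ c * (L ^ c * tau n) ^ #I) := mul_le_mul_of_nonneg_right h2 h3
        _ = _ := by ring
    · intro t X hX
      rw [hcard, hP] at hX
      rw [Finset.prod_insert hj, MVP_swap (M j) X (hM j)]
      unfold DPb
      rw [Finset.sum_mul]
      refine Finset.sum_congr rfl fun m hm => ?_
      rw [Finset.mem_Ico] at hm
      have hm0 : 0 < m := by
        have := hM j
        omega
      have h1 : 2 ^ #I * ∏ i ∈ I, M i ≤ X / m := by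
        rw [Nat.le_div_iff_mul_le hm0]
        calc 2 ^ #I * (∏ i ∈ I, M i) * m ≤ 2 ^ #I * (∏ i ∈ I, M i) * (2 * M j) :=
              Nat.mul_le_mul_left _ hm.2.le
          _ = 2 ^ (#I + 1) * (M j * ∏ i ∈ I, M i) := by ring
          _ ≤ X := hX
      rw [← hb3 t (X / m) h1]
      rfl

private lemma MVP_blocks (P J : ℕ) (b : ℕ → ℂ) (t : ℝ) :
    ∑ n ∈ Ico P (2 ^ J * P), b n * nit t n = ∑ j ∈ range J, DPb (2 ^ j * P) b t := by
  induction J with
  | zero => simp
  | succ J ih =>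
    rw [Finset.sum_range_succ, ← ih]
    unfold DPb
    have e : 2 ^ (J + 1) * P = 2 * (2 ^ J * P) := by ring
    rw [e]
    symm
    apply Finset.sum_Ico_consecutive
    · exact Nat.le_mul_of_pos_left P (by positivity)
    · omega

private lemma MVP_cont (P : ℕ) (b : ℕ → ℂ) : Continuous (fun t : ℝ => DPb P b t) := by
  unfold DPb nit
  fun_prop

theorem MVP (h1 : TAM_stmt) (h2 : Pool.Agent.CH.MVT_stmt) : MVP_stmt := by
  intro R c
  obtain ⟨C, hC, hMVT⟩ := h2
  set D : ℝ := C * (R + 1) ^ 2 * 2 ^ (2 * R + 1) with hD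
  have hD0 : 0 < D := by positivity
  refine ⟨1 + 2 + 2 * (c * R) + 2 * 2 ^ (2 * R), ?_⟩
  have hev : ∀ᶠ N : ℕ in Filter.atTop, (R : ℝ) + 20 + D ≤ Real.log N :=
    (Real.tendsto_log_atTop.comp tendsto_natCast_atTop_atTop).eventually_ge_atTop _
  obtain ⟨N₀, hN₀⟩ := Filter.eventually_atTop.1 hev
  refine ⟨N₀ + 1, fun N hN M a hM hPM ha I T hT => ?_⟩
  have hL := hN₀ N (by omega)
  set L := Real.log N with hLdef
  have hR0 : (0 : ℝ) ≤ R := Nat.cast_nonneg R
  have hL1 : 1 ≤ L := by linarith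
  have hL0 : 0 < L := by linarith
  obtain ⟨b, hb1, hb2, hb3⟩ := MVP_prod R c L hL1 M a hM ha I
  set P := ∏ i ∈ I, M i with hP
  have hP1 : 1 ≤ P := Finset.one_le_prod' fun i _ => hM i
  have hIR : #I ≤ R := by
    have := Finset.card_le_univ I
    simpa using this
  -- P ≤ 64 N³
  have hPN : P ≤ 64 * N ^ 3 := by
    refine le_trans ?_ hPM
    exact Finset.prod_le_prod_of_subset_of_one_le' (Finset.subset_univ I) fun i _ _ => hM i
  have hNpos : 0 < N := by omega
  -- the logarithm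
  have hlogP : 1 + Real.log ((2 ^ (R + 1) * P : ℕ) : ℝ) ≤ L ^ 2 := by
    have hPr : (0 : ℝ) < P := by exact_mod_cast hP1
    have hNr : (0 : ℝ) < N := by exact_mod_cast hNpos
    have e1 : Real.log ((2 ^ (R + 1) * P : ℕ) : ℝ) = (R + 1) * Real.log 2 + Real.log P := by
      push_cast
      rw [Real.log_mul (by positivity) hPr.ne', Real.log_pow]
      push_cast; ring
    have e2 : Real.log P ≤ 6 * Real.log 2 + 3 * L := by
      have h3 : Real.log (P : ℝ) ≤ Real.log ((64 * N ^ 3 : ℕ) : ℝ) :=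
        Real.log_le_log hPr (by exact_mod_cast hPN)
      have h4 : Real.log ((64 * N ^ 3 : ℕ) : ℝ) = 6 * Real.log 2 + 3 * L := by
        push_cast
        rw [Real.log_mul (by norm_num) (by positivity), Real.log_pow,
          (by norm_num : (64 : ℝ) = 2 ^ 6), Real.log_pow]
        push_cast; ring
      rw [h4] at h3
      exact h3
    have e3 : Real.log 2 ≤ 1 := by
      have := Real.log_two_lt_d9
      linarith
    have e4 : 0 ≤ Real.log 2 := Real.log_nonneg (by norm_num)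
    rw [e1]
    have e5 : ((R : ℝ) + 1) * Real.log 2 ≤ R + 1 := mul_le_of_le_one_right (by linarith) e3
    nlinarith
  have htau : ∀ n : ℕ, 1 ≤ n → 1 ≤ L ^ c * tau n := by
    intro n hn
    have ht := MVP_tau_one n hn
    have hLc : 1 ≤ L ^ c := one_le_pow₀ hL1
    nlinarith
  -- the sum of the squares of the coefficients of one block
  have hS : ∀ j ∈ range (R + 1), ∑ k ∈ Ico (2 ^ j * P) (2 * (2 ^ j * P)), ‖b k‖ ^ 2 ≤
      L ^ (2 * (c * R)) * ((2 ^ (R + 1) * P : ℕ) * (L ^ 2) ^ (2 ^ (2 * R))) := by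
    intro j hj
    rw [Finset.mem_range] at hj
    have hsub : Ico (2 ^ j * P) (2 * (2 ^ j * P)) ⊆ Ioc 0 (2 ^ (R + 1) * P) := by
      intro k hk
      rw [Finset.mem_Ico] at hk
      rw [Finset.mem_Ioc]
      have h3 : 0 < 2 ^ j * P := Nat.mul_pos (by positivity) hP1
      have h4 : 2 * (2 ^ j * P) ≤ 2 ^ (R + 1) * P := by
        have : 2 * (2 ^ j * P) = 2 ^ (j + 1) * P := by ring
        rw [this]
        exact Nat.mul_le_mul_right _ (Nat.pow_le_pow_right (by norm_num) (by omega))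
      omega
    calc ∑ k ∈ Ico (2 ^ j * P) (2 * (2 ^ j * P)), ‖b k‖ ^ 2
        ≤ ∑ k ∈ Ioc 0 (2 ^ (R + 1) * P), ‖b k‖ ^ 2 :=
          Finset.sum_le_sum_of_subset_of_nonneg hsub fun _ _ _ => by positivity
      _ ≤ ∑ k ∈ Ioc 0 (2 ^ (R + 1) * P), L ^ (2 * (c * R)) * tau k ^ (2 * R) := by
          refine Finset.sum_le_sum fun k hk => ?_
          rw [Finset.mem_Ioc] at hk
          have h3 := hb2 k hk.1
          have h4 : (L ^ c * tau k) ^ #I ≤ (L ^ c * tau k) ^ R := pow_le_pow_right₀ (htau k hk.1) hIR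
          have h5 := pow_le_pow_left₀ (norm_nonneg _) (h3.trans h4) 2
          refine h5.trans (le_of_eq ?_)
          rw [← pow_mul, mul_pow, ← pow_mul]
          congr 1
          · congr 1; ring
          · congr 1; ring
      _ = L ^ (2 * (c * R)) * ∑ k ∈ Ioc 0 (2 ^ (R + 1) * P), tau k ^ (2 * R) := by rw [Finset.mul_sum]
      _ ≤ L ^ (2 * (c * R)) * ((2 ^ (R + 1) * P : ℕ) *
            (1 + Real.log ((2 ^ (R + 1) * P : ℕ) : ℝ)) ^ (2 ^ (2 * R))) := by
          apply mul_le_mul_of_nonneg_left _ (by positivity)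
          exact (h1 (2 * R) (2 ^ (R + 1) * P)).1
      _ ≤ _ := by
          apply mul_le_mul_of_nonneg_left _ (by positivity)
          apply mul_le_mul_of_nonneg_left _ (by positivity)
          refine pow_le_pow_left₀ ?_ hlogP _
          have := Real.log_natCast_nonneg (2 ^ (R + 1) * P)
          linarith
  -- the product as the sum of the blocks
  have hprod : ∀ t : ℝ, ∏ i ∈ I, DPb (M i) (a i) t = ∑ j ∈ range (R + 1), DPb (2 ^ j * P) b t := by
    intro t
    have hle : 2 ^ #I * P ≤ 2 ^ (R + 1) * P :=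
      Nat.mul_le_mul_right _ (Nat.pow_le_pow_right (by norm_num) (by omega))
    rw [hb3 t (2 ^ (R + 1) * P) hle, ← MVP_blocks]
    symm
    apply Finset.sum_subset_zero_on_sdiff
    · intro n hn
      rw [Finset.mem_Ico] at hn
      rw [Finset.mem_Ioc]
      omega
    · intro n hn
      rw [Finset.mem_sdiff, Finset.mem_Ioc, Finset.mem_Ico] at hn
      have : b n = 0 := by
        by_contra hne
        have h3 := hb1 n hne
        have h4 : 2 ^ #I * P < 2 ^ (R + 1) * P :=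
          Nat.mul_lt_mul_of_pos_right (Nat.pow_lt_pow_right (by norm_num) (by omega)) hP1
        apply hn.2
        omega
      rw [this, zero_mul]
    · intro n _
      rfl
  have hsq : ∀ t : ℝ, ‖∏ i ∈ I, DPb (M i) (a i) t‖ ^ 2 ≤
      (R + 1 : ℝ) * ∑ j ∈ range (R + 1), ‖DPb (2 ^ j * P) b t‖ ^ 2 := by
    intro t
    rw [hprod t]
    have h3 : ‖∑ j ∈ range (R + 1), DPb (2 ^ j * P) b t‖ ^ 2 ≤
        (∑ j ∈ range (R + 1), ‖DPb (2 ^ j * P) b t‖) ^ 2 :=
      pow_le_pow_left₀ (norm_nonneg _) (norm_sum_le _ _) 2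
    have h4 := sq_sum_le_card_mul_sum_sq (s := range (R + 1)) (f := fun j => ‖DPb (2 ^ j * P) b t‖)
    rw [Finset.card_range] at h4
    push_cast at h4
    exact h3.trans h4
  have hT' : -T ≤ T := by linarith
  have hcontL : Continuous (fun t : ℝ => ‖∏ i ∈ I, DPb (M i) (a i) t‖ ^ 2) := by
    refine Continuous.pow (Continuous.norm ?_) 2
    exact continuous_finsetProd _ fun i _ => MVP_cont _ _
  have hcontj : ∀ j, Continuous (fun t : ℝ => ‖DPb (2 ^ j * P) b t‖ ^ 2) := fun j =>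
    ((MVP_cont _ _).norm).pow 2
  have hcontR : Continuous (fun t : ℝ => (R + 1 : ℝ) * ∑ j ∈ range (R + 1), ‖DPb (2 ^ j * P) b t‖ ^ 2) :=
    continuous_const.mul (continuous_finsetSum _ fun j _ => hcontj j)
  have hI1 : ∫ t in (-T)..T, ‖∏ i ∈ I, DPb (M i) (a i) t‖ ^ 2 ≤
      ∫ t in (-T)..T, (R + 1 : ℝ) * ∑ j ∈ range (R + 1), ‖DPb (2 ^ j * P) b t‖ ^ 2 :=
    intervalIntegral.integral_mono_on hT' (hcontL.intervalIntegrable _ _) (hcontR.intervalIntegrable _ _)
      fun t _ => hsq t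
  refine hI1.trans ?_
  rw [intervalIntegral.integral_const_mul,
    intervalIntegral.integral_finsetSum fun j _ => (hcontj j).intervalIntegrable _ _]
  have hPr : (1 : ℝ) ≤ P := by exact_mod_cast hP1
  have hblock : ∀ j ∈ range (R + 1), ∫ t in (-T)..T, ‖DPb (2 ^ j * P) b t‖ ^ 2 ≤
      C * (2 ^ R * (T + P)) * L ^ 2 *
        (L ^ (2 * (c * R)) * ((2 ^ (R + 1) * P : ℕ) * (L ^ 2) ^ (2 ^ (2 * R)))) := by
    intro j hj
    have hjR : j ≤ R := by
      rw [Finset.mem_range] at hj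
      omega
    have h3 := hMVT T (2 ^ j * P) b hT (Nat.mul_pos (by positivity) hP1)
    refine h3.trans ?_
    have h2j : (2 : ℝ) ^ j ≤ 2 ^ R := pow_le_pow_right₀ (by norm_num) hjR
    have h2R : (1 : ℝ) ≤ 2 ^ R := one_le_pow₀ (by norm_num)
    have e1 : T + ((2 ^ j * P : ℕ) : ℝ) ≤ 2 ^ R * (T + P) := by
      push_cast
      have e2 : T ≤ 2 ^ R * T := le_mul_of_one_le_left (by linarith) h2R
      have e3 : (2 : ℝ) ^ j * P ≤ 2 ^ R * P := mul_le_mul_of_nonneg_right h2j (by linarith)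
      linarith
    have e4 : 1 + Real.log ((2 ^ j * P : ℕ) : ℝ) ≤ L ^ 2 := by
      refine le_trans ?_ hlogP
      have : Real.log ((2 ^ j * P : ℕ) : ℝ) ≤ Real.log ((2 ^ (R + 1) * P : ℕ) : ℝ) := by
        apply Real.log_le_log
        · exact_mod_cast Nat.mul_pos (by positivity) hP1
        · exact_mod_cast Nat.mul_le_mul_right _ (Nat.pow_le_pow_right (by norm_num) (by omega))
      linarith
    have e5 : 0 ≤ 1 + Real.log ((2 ^ j * P : ℕ) : ℝ) := by
      have := Real.log_natCast_nonneg (2 ^ j * P)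
      linarith
    have e6 : 0 ≤ ∑ k ∈ Ico (2 ^ j * P) (2 * (2 ^ j * P)), ‖b k‖ ^ 2 :=
      Finset.sum_nonneg fun _ _ => by positivity
    refine mul_le_mul ?_ (hS j hj) e6 (by positivity)
    refine mul_le_mul ?_ e4 e5 (by positivity)
    exact mul_le_mul_of_nonneg_left e1 hC.le
  have hsum := Finset.sum_le_sum hblock
  rw [Finset.sum_const, Finset.card_range, nsmul_eq_mul] at hsum
  have hfin := mul_le_mul_of_nonneg_left hsum (by positivity : (0 : ℝ) ≤ (R + 1 : ℝ))
  refine hfin.trans ?_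
  have hDL : D ≤ L := by linarith
  have e7 : (R + 1 : ℝ) * (((R + 1 : ℕ) : ℝ) * (C * (2 ^ R * (T + P)) * L ^ 2 *
        (L ^ (2 * (c * R)) * ((2 ^ (R + 1) * P : ℕ) * (L ^ 2) ^ (2 ^ (2 * R)))))) =
      D * ((T + P) * P * (L ^ 2 * L ^ (2 * (c * R)) * L ^ (2 * 2 ^ (2 * R)))) := by
    rw [hD, ← pow_mul L 2 (2 ^ (2 * R))]
    push_cast
    ring
  rw [e7]
  have e8 : 0 ≤ (T + (P : ℝ)) * P * (L ^ 2 * L ^ (2 * (c * R)) * L ^ (2 * 2 ^ (2 * R))) := by
    have : 0 ≤ T + (P : ℝ) := by linarith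
    positivity
  refine (mul_le_mul_of_nonneg_right hDL e8).trans (le_of_eq ?_)
  rw [pow_add, pow_add, pow_add, pow_one]
  ring

end Pool.Agent.SK
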