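import Pool.Agent.helper24.SK.Spec

/-!
# Project SK (MP_5628fe_nt), row TRC: the triangle convolved with a Gaussian
-/

set_option autoImplicit false

namespace Pool.Agent.SK

open Finset ArithmeticFunction MeasureTheory
open Pool.Agent.CH (nit DPb Win Tset ph)
open Pool.Agent.EC (tri vN fN XN TL AdT)
open Pool.Agent.helper85.BVP (tau)
open GD (ks)

private lemma TRC_gauss (b v : ℝ) (hb : 0 < b) :
    Integrable (fun w : ℝ => Real.exp (-b * (v - w) ^ 2)) ∧
      ∫ w : ℝ, Real.exp (-b * (v - w) ^ 2) = √(Real.pi / b) := by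
  constructor
  · exact (integrable_exp_neg_mul_sq hb).comp_sub_left v
  · rw [integral_sub_left_eq_self (fun x : ℝ => Real.exp (-b * x ^ 2)) volume v, integral_gaussian]

private lemma TRC_ph_eq (δ u : ℝ) (hδ : 0 < δ) :
    ph δ u = Real.exp (-(1 / (2 * δ ^ 2)) * u ^ 2) * (1 / (δ * √(2 * Real.pi))) := by
  unfold ph
  rw [div_eq_mul_one_div]
  congr 2
  field_simp

private lemma TRC_ph_nonneg (δ u : ℝ) (hδ : 0 < δ) : 0 ≤ ph δ u := by
  unfold ph
  positivity

private lemma TRC_ph_int (δ v : ℝ) (hδ : 0 < δ) :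
    Integrable (fun w : ℝ => ph δ (v - w)) ∧ ∫ w : ℝ, ph δ (v - w) = 1 := by
  have hb : 0 < 1 / (2 * δ ^ 2) := by positivity
  obtain ⟨h1, h2⟩ := TRC_gauss (1 / (2 * δ ^ 2)) v hb
  have e : (fun w : ℝ => ph δ (v - w)) = fun w : ℝ =>
      Real.exp (-(1 / (2 * δ ^ 2)) * (v - w) ^ 2) * (1 / (δ * √(2 * Real.pi))) := by
    funext w
    exact TRC_ph_eq δ (v - w) hδ
  rw [e]
  refine ⟨h1.mul_const _, ?_⟩
  rw [integral_mul_const, h2]
  have h3 : √(Real.pi / (1 / (2 * δ ^ 2))) = δ * √(2 * Real.pi) := by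
    rw [show Real.pi / (1 / (2 * δ ^ 2)) = δ ^ 2 * (2 * Real.pi) by field_simp,
      Real.sqrt_mul (by positivity), Real.sqrt_sq hδ.le]
  rw [h3]
  have : δ * √(2 * Real.pi) ≠ 0 := by positivity
  field_simp

/-- first absolute moment -/
private lemma TRC_abs (s x : ℝ) (hs : 0 < s) :
    Integrable (fun w : ℝ => |x - w| * ph s (x - w)) ∧ ∫ w : ℝ, |x - w| * ph s (x - w) ≤ s := by
  have hb : 0 < 1 / (2 * s ^ 2) := by positivity
  have hc : (0 : ℝ) < 1 / (s * √(2 * Real.pi)) := by positivity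
  have e : (fun u : ℝ => |u| * ph s u) = fun u : ℝ =>
      (fun r : ℝ => r * Real.exp (-(1 / (2 * s ^ 2)) * r ^ 2) * (1 / (s * √(2 * Real.pi)))) |u| := by
    funext u
    simp only
    rw [TRC_ph_eq s u hs, sq_abs]
    ring
  have hi : Integrable (fun u : ℝ => |u| * ph s u) := by
    have h1 := ((integrable_mul_exp_neg_mul_sq hb).mul_const (1 / (s * √(2 * Real.pi)))).norm
    refine h1.congr (Filter.Eventually.of_forall fun u => ?_)
    simp only
    rw [TRC_ph_eq s u hs, norm_mul, norm_mul, Real.norm_eq_abs, Real.norm_eq_abs, Real.norm_eq_abs,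
      Real.abs_exp, abs_of_pos hc]
    ring
  have hv : ∫ u : ℝ, |u| * ph s u = 2 * s / √(2 * Real.pi) := by
    rw [e]
    refine (integral_comp_abs (f := fun r : ℝ =>
      r * Real.exp (-(1 / (2 * s ^ 2)) * r ^ 2) * (1 / (s * √(2 * Real.pi))))).trans ?_
    have h1 : ∫ r : ℝ in Set.Ioi 0, r * Real.exp (-(1 / (2 * s ^ 2)) * r ^ 2) = s ^ 2 := by
      have h2 := integral_mul_cexp_neg_mul_sq (b := ((1 / (2 * s ^ 2) : ℝ) : ℂ))
        (by rw [Complex.ofReal_re]; exact hb)
      have h3 : ∀ r : ℝ, (r : ℂ) * Complex.exp (-((1 / (2 * s ^ 2) : ℝ) : ℂ) * (r : ℂ) ^ 2) =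
          ((r * Real.exp (-(1 / (2 * s ^ 2)) * r ^ 2) : ℝ) : ℂ) := by
        intro r
        push_cast
        rfl
      simp_rw [h3] at h2
      rw [integral_complex_ofReal] at h2
      have h4 : (2 * ((1 / (2 * s ^ 2) : ℝ) : ℂ))⁻¹ = ((s ^ 2 : ℝ) : ℂ) := by
        have : (s : ℂ) ≠ 0 := by exact_mod_cast hs.ne'
        push_cast
        field_simp
      rw [h4] at h2
      exact_mod_cast h2
    rw [integral_mul_const, h1]
    have : √(2 * Real.pi) ≠ 0 := by positivity
    field_simp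
  constructor
  · exact hi.comp_sub_left x
  · rw [integral_sub_left_eq_self (fun u : ℝ => |u| * ph s u) volume x, hv]
    rw [div_le_iff₀ (by positivity)]
    have h5 : (2 : ℝ) ≤ √(2 * Real.pi) := by
      apply Real.le_sqrt_of_sq_le
      have := Real.pi_gt_three
      linarith
    nlinarith

private theorem TRC_gauss2 {s : ℝ} (hs : 0 < s) (z : ℝ) :
    ∫ t : ℝ, ((Real.exp (-(s ^ 2 * t ^ 2 / 2)) : ℝ) : ℂ) * Complex.exp (((t * z : ℝ) : ℂ) * Complex.I) =
      ((2 * Real.pi * ph s z : ℝ) : ℂ) := by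
  have hpi := Real.pi_pos
  have hV : 0 < s ^ 2 := by positivity
  have hre : 0 < (((s ^ 2 / 2 : ℝ) : ℂ)).re := by rw [Complex.ofReal_re]; positivity
  have key : ∀ t : ℝ, ((Real.exp (-(s ^ 2 * t ^ 2 / 2)) : ℝ) : ℂ) * Complex.exp (((t * z : ℝ) : ℂ) * Complex.I) =
      Complex.exp (Complex.I * (z : ℂ) * t) * Complex.exp (-((s ^ 2 / 2 : ℝ) : ℂ) * (t : ℂ) ^ 2) := by
    intro t
    rw [Complex.ofReal_exp, mul_comm]
    congr 2
    · push_cast; ring
    · push_cast; ring
  simp_rw [key]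
  rw [fourierIntegral_gaussian hre]
  unfold ph
  have h1 : ((Real.pi : ℂ) / ((s ^ 2 / 2 : ℝ) : ℂ)) ^ (1 / 2 : ℂ) = ((√(2 * Real.pi / s ^ 2) : ℝ) : ℂ) := by
    have e : ((Real.pi : ℂ) / ((s ^ 2 / 2 : ℝ) : ℂ)) = ((2 * Real.pi / s ^ 2 : ℝ) : ℂ) := by
      push_cast
      field_simp
    rw [e, Real.sqrt_eq_rpow, Complex.ofReal_cpow (by positivity)]
    norm_num
  rw [h1]
  have h2 : Complex.exp (-(z : ℂ) ^ 2 / (4 * ((s ^ 2 / 2 : ℝ) : ℂ))) =
      ((Real.exp (-(z ^ 2) / (2 * s ^ 2)) : ℝ) : ℂ) := by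
    rw [Complex.ofReal_exp]
    congr 1
    push_cast
    field_simp
    ring
  rw [h2, ← Complex.ofReal_mul]
  congr 1
  have h3 : √(2 * Real.pi / s ^ 2) = √(2 * Real.pi) / s := by
    rw [Real.sqrt_div (by positivity), Real.sqrt_sq hs.le]
  rw [h3]
  have h4 : √(2 * Real.pi) * √(2 * Real.pi) = 2 * Real.pi := Real.mul_self_sqrt (by positivity)
  have h5 : √(2 * Real.pi) ≠ 0 := by positivity
  field_simp
  linear_combination h4

private lemma TRC_cont (v δ : ℝ) : Continuous (tr0 v δ) := by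
  unfold tr0
  fun_prop

theorem TRC (h1 : TRB_stmt) (h2 : THB_stmt) : TRC_stmt := by
  intro v δ s x hδ hs
  obtain ⟨t1, t2, t3, t4, t5, t6, t7, t8⟩ := h1 v δ hδ
  obtain ⟨i1, i2⟩ := TRC_ph_int s x hs
  have hmi : Integrable (fun w => tr0 v δ w * ph s (x - w)) := by
    refine i1.mono' ?_ (Filter.Eventually.of_forall fun w => ?_)
    · exact (TRC_cont v δ).aestronglyMeasurable.mul i1.aestronglyMeasurable
    · rw [norm_mul, Real.norm_eq_abs, Real.norm_eq_abs, abs_of_nonneg (t1 w).1,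
        abs_of_nonneg (TRC_ph_nonneg s _ hs)]
      exact mul_le_of_le_one_left (TRC_ph_nonneg s _ hs) (t1 w).2
  refine ⟨?_, ?_, ?_⟩
  · have e1 : tr0 v δ x - trc v δ s x = ∫ w : ℝ, (tr0 v δ x - tr0 v δ w) * ph s (x - w) := by
      unfold trc
      have : (fun w : ℝ => (tr0 v δ x - tr0 v δ w) * ph s (x - w)) =
          fun w : ℝ => tr0 v δ x * ph s (x - w) - tr0 v δ w * ph s (x - w) := by
        funext w; ring
      rw [this, integral_sub (i1.const_mul _) hmi, integral_const_mul, i2, mul_one]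
    obtain ⟨a1, a2⟩ := TRC_abs s x hs
    rw [e1, ← Real.norm_eq_abs]
    have h3 : Integrable (fun w : ℝ => 1 / δ * (|x - w| * ph s (x - w))) := a1.const_mul _
    refine (norm_integral_le_of_norm_le h3 (Filter.Eventually.of_forall fun w => ?_)).trans ?_
    · rw [norm_mul, Real.norm_eq_abs, Real.norm_eq_abs, abs_of_nonneg (TRC_ph_nonneg s _ hs)]
      have := mul_le_mul_of_nonneg_right (t3 x w) (TRC_ph_nonneg s (x - w) hs)
      refine this.trans (le_of_eq ?_)
      ring
    · rw [integral_const_mul]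
      have := mul_le_mul_of_nonneg_left a2 (by positivity : 0 ≤ 1 / δ)
      refine this.trans (le_of_eq ?_)
      ring
  · intro ρ hρ hx
    have hb : 0 < 1 / (4 * s ^ 2) := by positivity
    obtain ⟨g1, g2⟩ := TRC_gauss (1 / (4 * s ^ 2)) x hb
    set κ : ℝ := Real.exp (-(ρ ^ 2 / (4 * s ^ 2))) * (1 / (s * √(2 * Real.pi))) with hκ
    have hκ0 : 0 ≤ κ := by positivity
    have hbd : ∀ w : ℝ, ‖tr0 v δ w * ph s (x - w)‖ ≤
        Real.exp (-(1 / (4 * s ^ 2)) * (x - w) ^ 2) * κ := by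
      intro w
      by_cases hw : δ ≤ |w - v|
      · rw [t2 w hw, zero_mul, norm_zero]
        positivity
      · push Not at hw
        have hxw : ρ ≤ |x - w| := by
          have h5 : |x - v| ≤ |x - w| + |w - v| := by
            have := abs_add_le (x - w) (w - v)
            rwa [sub_add_sub_cancel] at this
          linarith
        have hsq : ρ ^ 2 ≤ (x - w) ^ 2 := by
          rw [← sq_abs (x - w)]
          exact pow_le_pow_left₀ hρ.le hxw 2
        rw [norm_mul, Real.norm_eq_abs, Real.norm_eq_abs, abs_of_nonneg (TRC_ph_nonneg s _ hs),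
          abs_of_nonneg (t1 w).1]
        refine (mul_le_of_le_one_left (TRC_ph_nonneg s _ hs) (t1 w).2).trans ?_
        rw [TRC_ph_eq s _ hs, hκ, ← mul_assoc, ← Real.exp_add]
        apply mul_le_mul_of_nonneg_right _ (by positivity)
        apply Real.exp_le_exp.2
        have e1 : -(1 / (2 * s ^ 2)) * (x - w) ^ 2 =
            -(1 / (4 * s ^ 2)) * (x - w) ^ 2 - (x - w) ^ 2 * (1 / (4 * s ^ 2)) := by
          field_simp
          ring
        have e2 : ρ ^ 2 / (4 * s ^ 2) ≤ (x - w) ^ 2 * (1 / (4 * s ^ 2)) := by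
          rw [div_eq_mul_one_div]
          exact mul_le_mul_of_nonneg_right hsq hb.le
        rw [e1]
        linarith
    unfold trc
    rw [← Real.norm_eq_abs]
    refine (norm_integral_le_of_norm_le (g1.mul_const κ) (Filter.Eventually.of_forall hbd)).trans ?_
    rw [integral_mul_const, g2]
    have h3 : √(Real.pi / (1 / (4 * s ^ 2))) = √2 * (s * √(2 * Real.pi)) := by
      rw [show Real.pi / (1 / (4 * s ^ 2)) = 2 * (s ^ 2 * (2 * Real.pi)) by field_simp; ring,
        Real.sqrt_mul (by norm_num), Real.sqrt_mul (by positivity), Real.sqrt_sq hs.le]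
    rw [h3, hκ]
    have h4 : √2 * (s * √(2 * Real.pi)) * (Real.exp (-(ρ ^ 2 / (4 * s ^ 2))) * (1 / (s * √(2 * Real.pi)))) =
        √2 * Real.exp (-(ρ ^ 2 / (4 * s ^ 2))) := by
      have : s * √(2 * Real.pi) ≠ 0 := by positivity
      field_simp
    rw [h4]
    apply mul_le_mul_of_nonneg_right _ (Real.exp_pos _).le
    rw [Real.sqrt_le_left (by norm_num)]
    norm_num
  · obtain ⟨z1, z2, z3, z4, -, -, -, -⟩ := h1 0 δ hδ
    -- the convolution in the shifted variable
    have e1 : trc v δ s x = ∫ w : ℝ, tr0 0 δ w * ph s (x - v - w) := by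
      unfold trc
      rw [← integral_add_right_eq_self (fun w : ℝ => tr0 v δ w * ph s (x - w)) v]
      refine integral_congr_ae (Filter.Eventually.of_forall fun w => ?_)
      simp only
      have e2 : tr0 v δ (w + v) = tr0 0 δ w := by
        unfold tr0
        rw [add_sub_cancel_right, sub_zero]
      rw [e2]
      congr 2
      ring
    have hpi : (0 : ℝ) < 2 * Real.pi := by positivity
    -- Fubini
    have hG : Integrable (fun t : ℝ => Real.exp (-(s ^ 2 * t ^ 2 / 2))) := by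
      have := integrable_exp_neg_mul_sq (b := s ^ 2 / 2) (by positivity)
      refine this.congr (Filter.Eventually.of_forall fun t => ?_)
      simp only
      congr 1
      ring
    have hF : Integrable (Function.uncurry fun (t w : ℝ) =>
        ((Real.exp (-(s ^ 2 * t ^ 2 / 2)) : ℝ) : ℂ) * ((tr0 0 δ w : ℝ) : ℂ) *
          (Complex.exp (((-(t * w) : ℝ) : ℂ) * Complex.I) *
            Complex.exp (((t * (x - v) : ℝ) : ℂ) * Complex.I))) (volume.prod volume) := by
      have hp := hG.mul_prod z4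
      refine hp.mono' ?_ (Filter.Eventually.of_forall fun p => ?_)
      · apply Continuous.aestronglyMeasurable
        have hc := TRC_cont 0 δ
        unfold Function.uncurry
        fun_prop
      · obtain ⟨t, w⟩ := p
        simp only [Function.uncurry_apply_pair]
        rw [norm_mul, norm_mul, norm_mul, Complex.norm_exp_ofReal_mul_I, Complex.norm_exp_ofReal_mul_I,
          Complex.norm_real, Complex.norm_real, Real.norm_eq_abs, Real.norm_eq_abs, Real.abs_exp,
          abs_of_nonneg (z1 w).1]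
        simp
    have hsw := integral_integral_swap hF
    have hL : ∀ t : ℝ, ∫ w : ℝ, ((Real.exp (-(s ^ 2 * t ^ 2 / 2)) : ℝ) : ℂ) * ((tr0 0 δ w : ℝ) : ℂ) *
          (Complex.exp (((-(t * w) : ℝ) : ℂ) * Complex.I) *
            Complex.exp (((t * (x - v) : ℝ) : ℂ) * Complex.I)) =
        ((Real.exp (-(s ^ 2 * t ^ 2 / 2)) : ℝ) : ℂ) * Th δ t *
          Complex.exp (((t * (x - v) : ℝ) : ℂ) * Complex.I) := by
      intro t
      unfold Th
      rw [← integral_const_mul, ← integral_mul_const]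
      refine integral_congr_ae (Filter.Eventually.of_forall fun w => ?_)
      simp only
      ring
    have hR : ∀ w : ℝ, ∫ t : ℝ, ((Real.exp (-(s ^ 2 * t ^ 2 / 2)) : ℝ) : ℂ) * ((tr0 0 δ w : ℝ) : ℂ) *
          (Complex.exp (((-(t * w) : ℝ) : ℂ) * Complex.I) *
            Complex.exp (((t * (x - v) : ℝ) : ℂ) * Complex.I)) =
        ((2 * Real.pi * (tr0 0 δ w * ph s (x - v - w)) : ℝ) : ℂ) := by
      intro w
      have h5 := TRC_gauss2 hs (x - v - w)
      have h6 : ((2 * Real.pi * (tr0 0 δ w * ph s (x - v - w)) : ℝ) : ℂ) =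
          ((tr0 0 δ w : ℝ) : ℂ) * ((2 * Real.pi * ph s (x - v - w) : ℝ) : ℂ) := by
        push_cast; ring
      rw [h6, ← h5, ← integral_const_mul]
      refine integral_congr_ae (Filter.Eventually.of_forall fun t => ?_)
      simp only
      rw [← Complex.exp_add]
      have h7 : ((-(t * w) : ℝ) : ℂ) * Complex.I + ((t * (x - v) : ℝ) : ℂ) * Complex.I =
          ((t * (x - v - w) : ℝ) : ℂ) * Complex.I := by
        push_cast; ring
      rw [h7]
      ring
    simp_rw [hL, hR] at hsw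
    rw [hsw, e1, integral_complex_ofReal, integral_const_mul]
    push_cast
    have : (Real.pi : ℂ) ≠ 0 := by exact_mod_cast Real.pi_pos.ne'
    field_simp

end Pool.Agent.SK
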